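import Pool.Agent.helper46.CV.B4

/-!
# CV project, modules B5 and B6: moments and the lower bound from the fibres
-/

open scoped BigOperators

namespace Pool.Agent.helper28.OC

open L1G

section D
variable {p C n m : ℕ} [NeZero p]

theorem B5_AB_one {Ω : Type*} [AddCommGroup Ω] [Finite Ω] : AB (fun _ : Ω => (1 : ℂ)) 1 := by
  classical
  refine ⟨fun ψ => if ψ = 0 then 1 else 0, fun w => ?_, ?_⟩
  · simp only [ite_mul, one_mul, zero_mul, Finset.sum_ite_eq', Finset.mem_univ, if_true,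
      AddChar.zero_apply]
  · have : ∀ ψ : AddChar Ω ℂ, ‖(if ψ = 0 then (1 : ℂ) else 0)‖ = if ψ = 0 then (1 : ℝ) else 0 := by
      intro ψ
      split_ifs <;> simp
    simp only [this, Finset.sum_ite_eq', Finset.mem_univ, if_true]
    exact le_rfl

/-- the mass is at most `36` -/
theorem B5_mass {h : ℝ} (hg : Good p C n h) (t : ℝ × ℝ) :
    DR h t (fun _ : Om p C n m => 1) ≤ 36 := by
  have h1 := B3_bd (m := m) hg t (B5_AB_one (Ω := Om p C n m))
  have h2 := B4_DD_ofReal (m := m) h t (fun _ : Om p C n m => (1 : ℝ))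
  simp only [Complex.ofReal_one] at h2
  rw [h2, Complex.norm_real, mul_one] at h1
  exact (le_abs_self _).trans h1

theorem B5_num {s : ℝ} (hs : 0 ≤ s) {j : ℕ} (hj : j = 1 ∨ j = 2 ∨ j = 4) :
    s ^ j * Real.exp (-(s ^ 2 / 4)) ≤ 32 := by
  set x : ℝ := s ^ 2 / 4 with hx
  have hx0 : 0 ≤ x := by positivity
  have he : 1 + x + x ^ 2 / 2 ≤ Real.exp x := Real.quadratic_le_exp_of_nonneg hx0
  have hpos : 0 < Real.exp x := Real.exp_pos x
  rw [Real.exp_neg, ← div_eq_mul_inv, div_le_iff₀ hpos]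
  rcases hj with rfl | rfl | rfl
  · have : s ≤ 1 + s ^ 2 := by nlinarith [sq_nonneg (s - 1)]
    nlinarith
  · nlinarith
  · have : s ^ 4 = 16 * x ^ 2 := by rw [hx]; ring
    nlinarith

/-- module B5 (needs B3_bd): moments. `j = 1, 2, 4`. -/
theorem B5_moment {h : ℝ} (hh : 0 < h) (hg : Good p C n (Real.sqrt 2 * h)) (t : ℝ × ℝ) (j : ℕ)
    (hj : j = 1 ∨ j = 2 ∨ j = 4) :
    DR h t (fun w : Om p C n m => ‖aa w - (t.1 + t.2 * Complex.I)‖ ^ j) ≤ 2304 * h ^ j := by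
  have hpt : ∀ w : Om p C n m, ‖aa w - (t.1 + t.2 * Complex.I)‖ ^ j * WW h t w ≤
      64 * h ^ j * (1 * WW (Real.sqrt 2 * h) t w) := by
    intro w
    set u : ℝ := ‖aa w - (t.1 + t.2 * Complex.I)‖ with hu
    have hu0 : 0 ≤ u := norm_nonneg _
    have hu2 : u ^ 2 = (A1 w.1 - t.1) ^ 2 + (A1 w.2.1 - t.2) ^ 2 := by
      rw [hu, aa, ← Complex.normSq_eq_norm_sq]
      have : (A1 w.1 : ℂ) + A1 w.2.1 * Complex.I - (t.1 + t.2 * Complex.I) =
          ((A1 w.1 - t.1 : ℝ) : ℂ) + ((A1 w.2.1 - t.2 : ℝ) : ℂ) * Complex.I := by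
        push_cast
        ring
      rw [this, Complex.normSq_add_mul_I]
    have hW : WW h t w = Real.exp (-u ^ 2 / (2 * h ^ 2)) / h ^ 2 := by
      rw [WW, ← hu2]
    have h22 : (Real.sqrt 2 * h) ^ 2 = 2 * h ^ 2 := by
      rw [mul_pow, Real.sq_sqrt (by norm_num)]
    have hW2 : WW (Real.sqrt 2 * h) t w = Real.exp (-u ^ 2 / (4 * h ^ 2)) / (2 * h ^ 2) := by
      rw [WW, ← hu2, h22]
      congr 3
      ring
    have hs := B5_num (s := u / h) (by positivity) hj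
    have e1 : Real.exp (-u ^ 2 / (2 * h ^ 2)) =
        Real.exp (-((u / h) ^ 2 / 4)) * Real.exp (-u ^ 2 / (4 * h ^ 2)) := by
      rw [← Real.exp_add]
      congr 1
      field_simp
      ring
    have e2 : u ^ j = (u / h) ^ j * h ^ j := by
      rw [div_pow, div_mul_cancel₀]
      positivity
    rw [hW, hW2, e1, e2]
    have e3 : (u / h) ^ j * h ^ j *
        (Real.exp (-((u / h) ^ 2 / 4)) * Real.exp (-u ^ 2 / (4 * h ^ 2)) / h ^ 2) =
        ((u / h) ^ j * Real.exp (-((u / h) ^ 2 / 4))) *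
          (h ^ j * (Real.exp (-u ^ 2 / (4 * h ^ 2)) / h ^ 2)) := by ring
    have e4 : 64 * h ^ j * (1 * (Real.exp (-u ^ 2 / (4 * h ^ 2)) / (2 * h ^ 2))) =
        32 * (h ^ j * (Real.exp (-u ^ 2 / (4 * h ^ 2)) / h ^ 2)) := by
      field_simp
      ring
    rw [e3, e4]
    exact mul_le_mul_of_nonneg_right hs (by positivity)
  have hmass := B5_mass (m := m) hg t
  calc DR h t (fun w : Om p C n m => ‖aa w - (t.1 + t.2 * Complex.I)‖ ^ j)
      ≤ 64 * h ^ j * DR (Real.sqrt 2 * h) t (fun _ : Om p C n m => 1) := by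
        unfold DR
        rw [Finset.mul_expect]
        exact Finset.expect_le_expect fun w _ => hpt w
    _ ≤ 64 * h ^ j * 36 := by gcongr
    _ = 2304 * h ^ j := by ring

/-- module B6 (needs B3_bd): lower bound from the fibres -/
theorem B6_lower {h : ℝ} (hh : 0 < h) (hg : Good p C n (Real.sqrt 2 * h)) {p₀ κ r : ℝ}
    (hp₀ : p₀ ≤ DR h (0, 0) (fun _ : Om p C n m => 1)) (hκ : 0 ≤ κ)
    (g : Om p C n m → ℝ) (g0 : ∀ w, 0 ≤ g w) (hr : 0 ≤ r)
    (hfib : ∀ w₁ w₂, (A1 w₁) ^ 2 + (A1 w₂) ^ 2 ≤ r ^ 2 → κ ≤ 𝔼 v, g (w₁, w₂, v))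
    (hr2 : 72 * Real.exp (-(r ^ 2 / (4 * h ^ 2))) ≤ p₀ / 2) :
    κ * p₀ / 2 ≤ DR h (0, 0) g := by
  classical
  set ι : Om p C n m → ℝ := fun w => if (A1 w.1) ^ 2 + (A1 w.2.1) ^ 2 ≤ r ^ 2 then 1 else 0 with hι
  set ω : Om p C n m → ℝ := fun w => if (A1 w.1) ^ 2 + (A1 w.2.1) ^ 2 ≤ r ^ 2 then 0 else 1 with hω
  have hsum : DR h (0, 0) (fun _ : Om p C n m => 1) = DR h (0, 0) ι + DR h (0, 0) ω := by
    rw [← B4_add]
    congr 1
    funext w
    simp only [hι, hω]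
    split_ifs <;> norm_num
  have hout : DR h (0, 0) ω ≤ p₀ / 2 := by
    have h1 : DR h (0, 0) ω ≤ 2 * Real.exp (-(r ^ 2 / (4 * h ^ 2))) *
        DR (Real.sqrt 2 * h) (0, 0) (fun _ : Om p C n m => 1) := by
      unfold DR
      rw [Finset.mul_expect]
      refine Finset.expect_le_expect fun w _ => ?_
      simp only [hω]
      have h22 : (Real.sqrt 2 * h) ^ 2 = 2 * h ^ 2 := by
        rw [mul_pow, Real.sq_sqrt (by norm_num)]
      split_ifs with hc
      · rw [zero_mul]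
        have := B4_WW_nonneg (Real.sqrt 2 * h) (0, 0) w
        positivity
      · push Not at hc
        rw [one_mul, one_mul, WW, WW, h22]
        simp only [sub_zero]
        set q : ℝ := (A1 w.1) ^ 2 + (A1 w.2.1) ^ 2 with hq
        have e1 : Real.exp (-q / (2 * h ^ 2)) = Real.exp (-q / (4 * h ^ 2)) *
            Real.exp (-q / (4 * h ^ 2)) := by
          rw [← Real.exp_add]
          congr 1
          field_simp
          ring
        have e2 : Real.exp (-q / (4 * h ^ 2)) ≤ Real.exp (-(r ^ 2 / (4 * h ^ 2))) := by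
          apply Real.exp_le_exp.2
          rw [neg_div, neg_le_neg_iff]
          gcongr
        have e3 : -q / (2 * (2 * h ^ 2)) = -q / (4 * h ^ 2) := by
          congr 1
          ring
        rw [e1, e3]
        have e4 : 2 * Real.exp (-(r ^ 2 / (4 * h ^ 2))) *
            (Real.exp (-q / (4 * h ^ 2)) / (2 * h ^ 2)) =
            Real.exp (-(r ^ 2 / (4 * h ^ 2))) * Real.exp (-q / (4 * h ^ 2)) / h ^ 2 := by
          field_simp
        rw [e4]
        gcongr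
    have hmass := B5_mass (m := m) hg (0, 0)
    calc DR h (0, 0) ω ≤ 2 * Real.exp (-(r ^ 2 / (4 * h ^ 2))) *
        DR (Real.sqrt 2 * h) (0, 0) (fun _ : Om p C n m => 1) := h1
      _ ≤ 2 * Real.exp (-(r ^ 2 / (4 * h ^ 2))) * 36 := by gcongr
      _ = 72 * Real.exp (-(r ^ 2 / (4 * h ^ 2))) := by ring
      _ ≤ p₀ / 2 := hr2
  have hin : κ * DR h (0, 0) ι ≤ DR h (0, 0) g := by
    rw [B4_fub h (0, 0) g, ← B4_smul]
    refine B4_mono _ fun w => ?_
    simp only [hι]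
    split_ifs with hc
    · rw [mul_one]
      exact hfib w.1 w.2.1 hc
    · rw [mul_zero]
      exact Finset.expect_nonneg fun v _ => g0 _
  have h2 : p₀ / 2 ≤ DR h (0, 0) ι := by linarith
  calc κ * p₀ / 2 = κ * (p₀ / 2) := by ring
    _ ≤ κ * DR h (0, 0) ι := mul_le_mul_of_nonneg_left h2 hκ
    _ ≤ DR h (0, 0) g := hin

end D

end Pool.Agent.helper28.OC
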