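import Pool.Agent.helper28.OC.Base

/-!
# CV project, modules B4 and B3: the smoothed functional on the full space
-/

open scoped BigOperators

namespace Pool.Agent.helper28.OC

open L1G

section D
variable {p C n m : ℕ} [NeZero p]

/-- the mean over the full space as an iterated mean -/
theorem B4_exp3 {M : Type*} [AddCommMonoid M] [Module ℚ≥0 M] (f : Om p C n m → M) :
    𝔼 w : Om p C n m, f w = 𝔼 w₁ : Om1 p C n, 𝔼 w₂ : Om1 p C n, 𝔼 v : Omm p m, f (w₁, w₂, v) := by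
  rw [← Finset.univ_product_univ, Finset.expect_product]
  refine Finset.expect_congr rfl fun w₁ _ => ?_
  rw [← Finset.univ_product_univ, Finset.expect_product]

omit [NeZero p] in
theorem B4_WW_nonneg (h : ℝ) (t : ℝ × ℝ) (w : Om p C n m) : 0 ≤ WW h t w := by
  unfold WW
  positivity

theorem B4_DD_ofReal (h : ℝ) (t : ℝ × ℝ) (f : Om p C n m → ℝ) :
    DD h t (fun w => (f w : ℂ)) = (DR h t f : ℝ) := by
  unfold DD DR
  rw [Complex.ofReal_expect]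
  refine Finset.expect_congr rfl fun w _ => ?_
  push_cast
  rfl

theorem B4_mono {h : ℝ} (t : ℝ × ℝ) {f g : Om p C n m → ℝ} (hfg : ∀ w, f w ≤ g w) :
    DR h t f ≤ DR h t g := by
  unfold DR
  exact Finset.expect_le_expect fun w _ =>
    mul_le_mul_of_nonneg_right (hfg w) (B4_WW_nonneg h t w)

theorem B4_norm_le {h : ℝ} (t : ℝ × ℝ) (f : Om p C n m → ℂ) :
    ‖DD h t f‖ ≤ DR h t fun w => ‖f w‖ := by
  unfold DD DR
  refine (RCLike.norm_expect_le (K := ℂ)).trans (le_of_eq ?_)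
  refine Finset.expect_congr rfl fun w _ => ?_
  rw [norm_mul, Complex.norm_real, Real.norm_of_nonneg (B4_WW_nonneg h t w)]

omit [NeZero p] in
/-- the Gaussian weight as a product -/
theorem B4_WW_eq (h : ℝ) (t : ℝ × ℝ) (w : Om p C n m) :
    WW h t w = (Real.exp (-(A1 w.1 - t.1) ^ 2 / (2 * h ^ 2)) / h) *
      (Real.exp (-(A1 w.2.1 - t.2) ^ 2 / (2 * h ^ 2)) / h) := by
  unfold WW
  rw [div_mul_div_comm, ← Real.exp_add, sq h]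
  congr 2
  ring

theorem B4_prod (F₁ F₂ : Om1 p C n → ℂ) (F₃ : Omm p m → ℂ) :
    𝔼 w : Om p C n m, F₁ w.1 * F₂ w.2.1 * F₃ w.2.2 =
      (𝔼 w : Om1 p C n, F₁ w) * (𝔼 w : Om1 p C n, F₂ w) * 𝔼 v : Omm p m, F₃ v := by
  rw [B4_exp3, Fintype.expect_mul_expect, Finset.expect_mul]
  refine Finset.expect_congr rfl fun w₁ _ => ?_
  rw [Fintype.expect_mul_expect]

/-- integration over the fresh coordinates -/
theorem B4_fub (h : ℝ) (t : ℝ × ℝ) (g : Om p C n m → ℝ) :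
    DR h t g = DR h t (fun w : Om p C n m => 𝔼 v : Omm p m, g (w.1, w.2.1, v)) := by
  unfold DR
  rw [B4_exp3, B4_exp3]
  refine Finset.expect_congr rfl fun w₁ _ => ?_
  refine Finset.expect_congr rfl fun w₂ _ => ?_
  have h1 : ∀ v : Omm p m, WW h t (w₁, w₂, v) = WW h t ((w₁, w₂, 0) : Om p C n m) := fun v => rfl
  simp only [h1]
  rw [Fintype.expect_const, Finset.expect_mul]

theorem B4_const (h : ℝ) (t : ℝ × ℝ) (c : ℝ) :
    DR h t (fun _ : Om p C n m => c) = DR h t (fun _ : Om p C n m => 1) * c := by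
  unfold DR
  rw [Finset.expect_mul]
  refine Finset.expect_congr rfl fun w _ => by ring

theorem B4_smul (h : ℝ) (t : ℝ × ℝ) (c : ℝ) (g : Om p C n m → ℝ) :
    DR h t (fun w => c * g w) = c * DR h t g := by
  unfold DR
  rw [Finset.mul_expect]
  refine Finset.expect_congr rfl fun w _ => by ring

theorem B4_add (h : ℝ) (t : ℝ × ℝ) (f g : Om p C n m → ℝ) :
    DR h t (fun w => f w + g w) = DR h t f + DR h t g := by
  unfold DR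
  rw [← Finset.expect_add_distrib]
  refine Finset.expect_congr rfl fun w _ => by ring

/-- the mean of a function of the fresh coordinates factors out -/
theorem B4_fresh (h : ℝ) (t : ℝ × ℝ) (g : Omm p m → ℝ) :
    DR h t (fun w : Om p C n m => g w.2.2) = DR h t (fun _ : Om p C n m => 1) * 𝔼 v, g v := by
  rw [B4_fub]
  exact B4_const (p := p) (C := C) (n := n) (m := m) h t (𝔼 v, g v)

/-- the functional at a product of functions -/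
theorem B4_DD_prod (h : ℝ) (t : ℝ × ℝ) (ψ₁ ψ₂ : AddChar (Om1 p C n) ℂ) (F₃ : Omm p m → ℂ) :
    DD h t (fun w : Om p C n m => ψ₁ w.1 * ψ₂ w.2.1 * F₃ w.2.2) =
      dd h ψ₁ t.1 * dd h ψ₂ t.2 * 𝔼 v : Omm p m, F₃ v := by
  unfold DD dd
  rw [Finset.expect_div, Finset.expect_div, ← B4_prod]
  refine Finset.expect_congr rfl fun w _ => ?_
  rw [B4_WW_eq]
  push_cast
  ring

theorem B4_dd_zero (h t : ℝ) : dd h (0 : AddChar (Om1 p C n) ℂ) t =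
    (((𝔼 w : Om1 p C n, Real.exp (-(A1 w - t) ^ 2 / (2 * h ^ 2))) / h : ℝ) : ℂ) := by
  unfold dd
  rw [Complex.ofReal_div, Complex.ofReal_expect]
  congr 1
  refine Finset.expect_congr rfl fun w _ => ?_
  rw [AddChar.zero_apply, one_mul]

theorem B4_one (h : ℝ) : DR h (0, 0) (fun _ : Om p C n m => 1) =
    (dd h (0 : AddChar (Om1 p C n) ℂ) 0).re ^ 2 := by
  have h1 := B4_DD_prod (m := m) h ((0, 0) : ℝ × ℝ) (0 : AddChar (Om1 p C n) ℂ) 0 (fun _ => 1)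
  have h2 : DD h (0, 0) (fun w : Om p C n m => (0 : AddChar (Om1 p C n) ℂ) w.1 *
      (0 : AddChar (Om1 p C n) ℂ) w.2.1 * (fun _ => (1 : ℂ)) w.2.2) =
      DD h (0, 0) (fun _ : Om p C n m => ((1 : ℝ) : ℂ)) := by
    congr 1
    funext w
    simp
  rw [h2, B4_DD_ofReal, Fintype.expect_const, mul_one] at h1
  have h3 : ((dd h (0 : AddChar (Om1 p C n) ℂ) 0).re : ℂ) = dd h (0 : AddChar (Om1 p C n) ℂ) 0 := by
    rw [B4_dd_zero, Complex.ofReal_re]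
  simp only at h1
  rw [← h3] at h1
  have h4 : ((DR h (0, 0) (fun _ : Om p C n m => 1) : ℝ) : ℂ) =
      (((dd h (0 : AddChar (Om1 p C n) ℂ) 0).re ^ 2 : ℝ) : ℂ) := by
    rw [h1]
    push_cast
    ring
  exact_mod_cast h4

/-! ### module B3 -/

theorem B3_sum (h : ℝ) (t : ℝ × ℝ) (c : AddChar (Om p C n m) ℂ → ℂ) :
    DD h t (fun w => ∑ ψ, c ψ * ψ w) = ∑ ψ, c ψ * DD h t (fun w => ψ w) := by
  unfold DD
  simp only [Finset.sum_mul]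
  rw [Finset.expect_sum_comm]
  refine Finset.sum_congr rfl fun ψ _ => ?_
  rw [Finset.mul_expect]
  refine Finset.expect_congr rfl fun w _ => by ring

/-- from characters to functions with absolutely summable Fourier expansion -/
theorem B3_gen {f : Om p C n m → ℂ} {B K : ℝ} (hf : AB f B) (hK : 0 ≤ K)
    (L : (Om p C n m → ℂ) → ℂ)
    (hL : ∀ c : AddChar (Om p C n m) ℂ → ℂ,
      L (fun w => ∑ ψ, c ψ * ψ w) = ∑ ψ, c ψ * L (fun w => ψ w))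
    (hb : ∀ ψ : AddChar (Om p C n m) ℂ, ‖L (fun w => ψ w)‖ ≤ K) : ‖L f‖ ≤ K * B := by
  obtain ⟨c, hc, hcB⟩ := hf
  have h1 : f = fun w => ∑ ψ, c ψ * ψ w := funext hc
  rw [h1, hL]
  calc ‖∑ ψ, c ψ * L (fun w => ψ w)‖ ≤ ∑ ψ, ‖c ψ * L (fun w => ψ w)‖ := norm_sum_le _ _
    _ ≤ ∑ ψ, ‖c ψ‖ * K := by
        refine Finset.sum_le_sum fun ψ _ => ?_
        rw [norm_mul]
        exact mul_le_mul_of_nonneg_left (hb ψ) (norm_nonneg _)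
    _ = K * ∑ ψ, ‖c ψ‖ := by rw [← Finset.sum_mul, mul_comm]
    _ ≤ K * B := mul_le_mul_of_nonneg_left hcB hK

/-- a character of the full space is a product -/
theorem B3_char (ψ : AddChar (Om p C n m) ℂ) : ∃ (ψ₁ ψ₂ : AddChar (Om1 p C n) ℂ)
    (ψ₃ : AddChar (Omm p m) ℂ), ∀ h t, DD h t (fun w => ψ w) =
      dd h ψ₁ t.1 * dd h ψ₂ t.2 * 𝔼 v : Omm p m, ψ₃ v := by
  refine ⟨ψ.compAddMonoidHom (AddMonoidHom.inl _ _),
    ψ.compAddMonoidHom ((AddMonoidHom.inr _ _).comp (AddMonoidHom.inl _ _)),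
    ψ.compAddMonoidHom ((AddMonoidHom.inr _ _).comp (AddMonoidHom.inr _ _)), fun h t => ?_⟩
  rw [← B4_DD_prod]
  congr 1
  funext w
  simp only [AddChar.compAddMonoidHom_apply, AddMonoidHom.coe_comp, Function.comp_apply,
    AddMonoidHom.inl_apply, AddMonoidHom.inr_apply]
  rw [← AddChar.map_add_eq_mul, ← AddChar.map_add_eq_mul]
  congr 1
  ext <;> simp

theorem B3_E3 (ψ : AddChar (Omm p m) ℂ) : ‖𝔼 v : Omm p m, ψ v‖ ≤ 1 := by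
  refine (RCLike.norm_expect_le (K := ℂ)).trans ?_
  have : ∀ v : Omm p m, ‖ψ v‖ = 1 := fun v => AddChar.norm_apply ψ v
  simp only [this]
  rw [Fintype.expect_const]

/-- module B3 (needs AB): from characters to `AB` functions -/
theorem B3_bd {h : ℝ} (hg : Good p C n h) (t : ℝ × ℝ) {f : Om p C n m → ℂ} {B : ℝ} (hf : AB f B) :
    ‖DD h t f‖ ≤ 36 * B := by
  refine B3_gen hf (by norm_num) (DD h t) (fun c => B3_sum h t c) fun ψ => ?_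
  obtain ⟨ψ₁, ψ₂, ψ₃, hψ⟩ := B3_char ψ
  rw [hψ, norm_mul, norm_mul]
  have h1 := (hg ψ₁ t.1).1
  have h2 := (hg ψ₂ t.2).1
  have h3 := B3_E3 ψ₃
  calc ‖dd h ψ₁ t.1‖ * ‖dd h ψ₂ t.2‖ * ‖𝔼 v : Omm p m, ψ₃ v‖ ≤ 6 * 6 * 1 := by gcongr
    _ = 36 := by norm_num

theorem B3_lip1 {h : ℝ} (hg : Good p C n h) (τ : ℝ) {f : Om p C n m → ℂ} {B : ℝ} (hf : AB f B) :
    ‖DD h (τ, 0) f - DD h (0, 0) f‖ ≤ 36 * |τ| * B := by
  refine B3_gen hf (by positivity) (fun f => DD h (τ, 0) f - DD h (0, 0) f) (fun c => ?_)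
    fun ψ => ?_
  · rw [B3_sum, B3_sum, ← Finset.sum_sub_distrib]
    refine Finset.sum_congr rfl fun ψ _ => by ring
  · obtain ⟨ψ₁, ψ₂, ψ₃, hψ⟩ := B3_char ψ
    simp only [hψ]
    have e : dd h ψ₁ τ * dd h ψ₂ 0 * (𝔼 v : Omm p m, ψ₃ v) -
        dd h ψ₁ 0 * dd h ψ₂ 0 * (𝔼 v : Omm p m, ψ₃ v) =
        (dd h ψ₁ τ - dd h ψ₁ 0) * dd h ψ₂ 0 * (𝔼 v : Omm p m, ψ₃ v) := by ring
    rw [e, norm_mul, norm_mul]
    have h1 := (hg ψ₁ τ).2.1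
    have h2 := (hg ψ₂ 0).1
    have h3 := B3_E3 ψ₃
    calc ‖dd h ψ₁ τ - dd h ψ₁ 0‖ * ‖dd h ψ₂ 0‖ * ‖𝔼 v : Omm p m, ψ₃ v‖
        ≤ (6 * |τ|) * 6 * 1 := by gcongr
      _ = 36 * |τ| := by ring

theorem B3_lip2 {h : ℝ} (hg : Good p C n h) (τ : ℝ) {f : Om p C n m → ℂ} {B : ℝ} (hf : AB f B) :
    ‖DD h (0, τ) f - DD h (0, 0) f‖ ≤ 36 * |τ| * B := by
  refine B3_gen hf (by positivity) (fun f => DD h (0, τ) f - DD h (0, 0) f) (fun c => ?_)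
    fun ψ => ?_
  · rw [B3_sum, B3_sum, ← Finset.sum_sub_distrib]
    refine Finset.sum_congr rfl fun ψ _ => by ring
  · obtain ⟨ψ₁, ψ₂, ψ₃, hψ⟩ := B3_char ψ
    simp only [hψ]
    have e : dd h ψ₁ 0 * dd h ψ₂ τ * (𝔼 v : Omm p m, ψ₃ v) -
        dd h ψ₁ 0 * dd h ψ₂ 0 * (𝔼 v : Omm p m, ψ₃ v) =
        dd h ψ₁ 0 * (dd h ψ₂ τ - dd h ψ₂ 0) * (𝔼 v : Omm p m, ψ₃ v) := by ring
    rw [e, norm_mul, norm_mul]
    have h1 := (hg ψ₂ τ).2.1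
    have h2 := (hg ψ₁ 0).1
    have h3 := B3_E3 ψ₃
    calc ‖dd h ψ₁ 0‖ * ‖dd h ψ₂ τ - dd h ψ₂ 0‖ * ‖𝔼 v : Omm p m, ψ₃ v‖
        ≤ 6 * (6 * |τ|) * 1 := by gcongr
      _ = 36 * |τ| := by ring

theorem B3_snd1 {h : ℝ} (hg : Good p C n h) (τ : ℝ) {f : Om p C n m → ℂ} {B : ℝ} (hf : AB f B) :
    ‖DD h (τ, 0) f + DD h (-τ, 0) f - 2 * DD h (0, 0) f‖ ≤ 36 * τ ^ 2 * B := by
  refine B3_gen hf (by positivity) (fun f => DD h (τ, 0) f + DD h (-τ, 0) f - 2 * DD h (0, 0) f)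
    (fun c => ?_) fun ψ => ?_
  · rw [B3_sum, B3_sum, B3_sum, Finset.mul_sum, ← Finset.sum_add_distrib,
      ← Finset.sum_sub_distrib]
    refine Finset.sum_congr rfl fun ψ _ => by ring
  · obtain ⟨ψ₁, ψ₂, ψ₃, hψ⟩ := B3_char ψ
    simp only [hψ]
    have e : dd h ψ₁ τ * dd h ψ₂ 0 * (𝔼 v : Omm p m, ψ₃ v) +
        dd h ψ₁ (-τ) * dd h ψ₂ 0 * (𝔼 v : Omm p m, ψ₃ v) -
        2 * (dd h ψ₁ 0 * dd h ψ₂ 0 * (𝔼 v : Omm p m, ψ₃ v)) =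
        (dd h ψ₁ τ + dd h ψ₁ (-τ) - 2 * dd h ψ₁ 0) * dd h ψ₂ 0 * (𝔼 v : Omm p m, ψ₃ v) := by ring
    rw [e, norm_mul, norm_mul]
    have h1 := (hg ψ₁ τ).2.2
    have h2 := (hg ψ₂ 0).1
    have h3 := B3_E3 ψ₃
    calc ‖dd h ψ₁ τ + dd h ψ₁ (-τ) - 2 * dd h ψ₁ 0‖ * ‖dd h ψ₂ 0‖ * ‖𝔼 v : Omm p m, ψ₃ v‖
        ≤ (6 * τ ^ 2) * 6 * 1 := by gcongr
      _ = 36 * τ ^ 2 := by ring

theorem B3_snd2 {h : ℝ} (hg : Good p C n h) (τ : ℝ) {f : Om p C n m → ℂ} {B : ℝ} (hf : AB f B) :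
    ‖DD h (0, τ) f + DD h (0, -τ) f - 2 * DD h (0, 0) f‖ ≤ 36 * τ ^ 2 * B := by
  refine B3_gen hf (by positivity) (fun f => DD h (0, τ) f + DD h (0, -τ) f - 2 * DD h (0, 0) f)
    (fun c => ?_) fun ψ => ?_
  · rw [B3_sum, B3_sum, B3_sum, Finset.mul_sum, ← Finset.sum_add_distrib,
      ← Finset.sum_sub_distrib]
    refine Finset.sum_congr rfl fun ψ _ => by ring
  · obtain ⟨ψ₁, ψ₂, ψ₃, hψ⟩ := B3_char ψ
    simp only [hψ]
    have e : dd h ψ₁ 0 * dd h ψ₂ τ * (𝔼 v : Omm p m, ψ₃ v) +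
        dd h ψ₁ 0 * dd h ψ₂ (-τ) * (𝔼 v : Omm p m, ψ₃ v) -
        2 * (dd h ψ₁ 0 * dd h ψ₂ 0 * (𝔼 v : Omm p m, ψ₃ v)) =
        dd h ψ₁ 0 * (dd h ψ₂ τ + dd h ψ₂ (-τ) - 2 * dd h ψ₂ 0) * (𝔼 v : Omm p m, ψ₃ v) := by ring
    rw [e, norm_mul, norm_mul]
    have h1 := (hg ψ₂ τ).2.2
    have h2 := (hg ψ₁ 0).1
    have h3 := B3_E3 ψ₃
    calc ‖dd h ψ₁ 0‖ * ‖dd h ψ₂ τ + dd h ψ₂ (-τ) - 2 * dd h ψ₂ 0‖ * ‖𝔼 v : Omm p m, ψ₃ v‖
        ≤ 6 * (6 * τ ^ 2) * 1 := by gcongr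
      _ = 36 * τ ^ 2 := by ring

end D

end Pool.Agent.helper28.OC
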